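import Mathlib
import Pool.Agent.MP_7f7a01_al.Defs
import Pool.Agent.MP_7f7a01_al.Amplify
import Pool.Agent.MP_7f7a01_al.Finite
import Pool.Agent.MP_7f7a01_al.Char2
import Pool.Agent.MP_7f7a01_al.CharNe2

/-!
# The threshold constant in the definition of linear sofic groups

For every field `K` and every `ε > 0`, the class `C_ε` of `ε`-approximable countable groups equals
the class `C_{1/4}` of linear sofic groups if and only if `ε ≤ 1/2`.
-/

namespace Pool.Agent.Results.MP_7f7a01_al.ThresholdHalf

open Pool.Agent.MP_7f7a01_al

universe u v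

theorem result (K : Type u) [Field K] (ε : ℝ) (hε : 0 < ε) :
    (∀ (G : Type v) [Group G] [Countable G], Approximable K ε G ↔ Approximable K (1 / 4) G) ↔
      ε ≤ 1 / 2 := by
  constructor
  · intro h
    by_contra hlt
    push Not at hlt
    -- choose `k` with `2^k < 2 (2^k - 1) ε`
    obtain ⟨k, hk⟩ : ∃ k : ℕ, 2 * ε / (2 * ε - 1) < (2 : ℝ) ^ k :=
      pow_unbounded_of_one_lt _ (by norm_num)
    have hpos : 0 < 2 * ε - 1 := by linarith
    rw [div_lt_iff₀ hpos] at hk
    have hk' : (2 : ℝ) ^ k < 2 * ((2 : ℝ) ^ k - 1) * ε := by linarith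
    have hk0 : k ≠ 0 := by
      rintro rfl
      norm_num at hk'
    let H := Multiplicative (Fin k → ZMod 2)
    let e : H ≃* ULift.{v} H := MulEquiv.ulift.symm
    have hG := h (ULift.{v} H)
    rw [approximable_iff_gen, approximable_iff_gen] at hG
    have h4 : Gen K (1 / 4) (ULift.{v} H) :=
      (gen_half_of_finite K (ULift.{v} H)).mono (by norm_num)
    have hε' := hG.mpr h4
    by_cases h2 : (2 : K) = 0
    · have : CharP K 2 := CharTwo.of_one_ne_zero_of_two_eq_zero one_ne_zero h2
      have hi : 0 < k := Nat.pos_of_ne_zero hk0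
      let x : Fin k → ZMod 2 := Pi.single ⟨0, hi⟩ 1
      refine not_gen_char_two hlt (e (Multiplicative.ofAdd x)) ?_ ?_ hε'
      · intro hx
        rw [← map_one e] at hx
        have h1 := Multiplicative.ofAdd.injective (e.injective hx)
        have h3 := congrFun h1 ⟨0, hi⟩
        simp [x] at h3
      · rw [← map_mul, ← map_one e, ← ofAdd_add]
        congr 1
        have : x + x = 0 := by
          funext i
          exact CharTwo.add_self_eq_zero _
        rw [this]; rfl
    · exact not_gen_char_ne_two h2 hk' e hε'
  · intro hle G _ _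
    rw [approximable_iff_gen, approximable_iff_gen]
    constructor
    · intro h
      exact (Gen.half hε h).mono (by norm_num)
    · intro h
      exact (Gen.half (by norm_num) h).mono hle

end Pool.Agent.Results.MP_7f7a01_al.ThresholdHalf
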